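import Mathlib

open Finset

namespace Pool.Agent.Results.MP_7d4b8e_co.Arcs

open Classical

/-- the unit arc `[x, x+1)` on the circle of circumference `l`. -/
def arc (l x : ℝ) : Set (AddCircle l) := (fun t : ℝ => (t : AddCircle l)) '' Set.Ico x (x + 1)

def Arcs {l : ℝ} (A : Finset (Set (AddCircle l))) : Prop := ∀ a ∈ A, ∃ x, a = arc l x

/-- number of arcs of `A` through `p`. -/
noncomputable def cnt {l : ℝ} (A : Finset (Set (AddCircle l))) (p : AddCircle l) : ℕ :=
  (A.filter fun a => p ∈ a).card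

/-- max load. -/
noncomputable def load {l : ℝ} (A : Finset (Set (AddCircle l))) : ℕ := ⨆ p, cnt A p

/-- `A` has a proper colouring with `L` colours. -/
def Col {l : ℝ} (A : Finset (Set (AddCircle l))) (L : ℕ) : Prop :=
  ∃ c : Set (AddCircle l) → ℕ, (∀ a ∈ A, c a < L) ∧
    ∀ a ∈ A, ∀ b ∈ A, a ≠ b → (a ∩ b).Nonempty → c a ≠ c b

lemma le_load {l : ℝ} (A : Finset (Set (AddCircle l))) (p : AddCircle l) : cnt A p ≤ load A :=
  le_ciSup (f := cnt A) ⟨A.card, by rintro _ ⟨q, rfl⟩; exact Finset.card_filter_le _ _⟩ p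

lemma norm {l : ℝ} (hl : 0 < l) (x : ℝ) : ∃ y, 0 ≤ y ∧ y < l ∧ arc l x = arc l y := by
  have h := toIcoMod_mem_Ico hl 0 x
  refine ⟨toIcoMod hl 0 x, h.1, by simpa using h.2, ?_⟩
  have e : toIcoMod hl 0 x = x - toIcoDiv hl 0 x • l := rfl
  rw [e]
  generalize toIcoDiv hl 0 x = m
  have hz : ((m • l : ℝ) : AddCircle l) = 0 := by
    rw [AddCircle.coe_zsmul, AddCircle.coe_period, smul_zero]
  ext p
  constructor
  · rintro ⟨t, ht, rfl⟩
    exact ⟨t - m • l, ⟨by linarith [ht.1], by linarith [ht.2]⟩, by simp only [AddCircle.coe_sub, hz, sub_zero]⟩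
  · rintro ⟨t, ht, rfl⟩
    exact ⟨t + m • l, ⟨by linarith [ht.1], by linarith [ht.2]⟩, by simp only [AddCircle.coe_add, hz, add_zero]⟩

lemma core {l : ℝ} (hl : 0 < l) {n L : ℕ} (s : Fin n → ℝ) (h0 : ∀ i, 0 ≤ s i) (h1 : ∀ i, s i < l)
    (hm : Monotone s) (hc : ∀ p, (univ.filter fun k => p ∈ arc l (s k)).card ≤ L)
    (i j : Fin n) (hij : i.val + L ≤ j) (hji : j.val + L ≤ i + n) :
    ¬ (arc l (s i) ∩ arc l (s j)).Nonempty := by
  have k1 : s i + 1 ≤ s j := by
    by_contra hc'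
    push Not at hc'
    have := (Finset.card_le_card (s := Icc i j) fun k hk => ?_).trans (hc (s j : ℝ))
    · rw [Fin.card_Icc] at this; omega
    · rw [mem_Icc] at hk
      simp only [mem_filter, mem_univ, true_and]
      exact ⟨s j, ⟨hm hk.2, by linarith [hm hk.1]⟩, rfl⟩
  have hlt : i < j := by
    by_contra hc'
    push Not at hc'
    linarith [hm hc']
  have k2 : s j + 1 ≤ s i + l := by
    by_contra hc'
    push Not at hc'
    have := (Finset.card_le_card (s := Iic i ∪ Ici j) fun k hk => ?_).trans (hc (s i : ℝ))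
    · rw [Finset.card_union_of_disjoint, Fin.card_Iic, Fin.card_Ici] at this
      · omega
      · exact Finset.disjoint_left.2 fun k a b =>
          absurd ((mem_Ici.1 b).trans (mem_Iic.1 a)) (not_le.2 hlt)
    · simp only [mem_filter, mem_univ, true_and]
      rcases mem_union.1 hk with hk | hk
      · exact ⟨s i, ⟨hm (mem_Iic.1 hk), by linarith [h0 k, h1 j]⟩, rfl⟩
      · exact ⟨s i + l, ⟨by linarith [h1 k, h0 i], by linarith [hm (mem_Ici.1 hk)]⟩, by simp⟩
  rintro ⟨p, ⟨u, hu, rfl⟩, ⟨v, hv, e⟩⟩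
  have : Fact (0 < l) := ⟨hl⟩
  have := (AddCircle.coe_eq_coe_iff_of_mem_Ico (a := s i) (x := v) (y := u)
    ⟨by linarith [hv.1], by linarith [hv.2]⟩ ⟨hu.1, by linarith [hu.2]⟩).1 e
  linarith [hv.1, hu.2]

lemma main {l : ℝ} (hl : 0 < l) (A B : Finset (Set (AddCircle l))) (hA : Arcs A) (hB : Arcs B)
    (L : ℕ) (hL : L ≤ B.card + 1) (hc : ∀ p, cnt A p + cnt B p ≤ L) : Col A L := by
  rcases Nat.eq_zero_or_pos L with rfl | hL0
  · refine ⟨fun _ => 0, fun a ha => ?_, fun a ha => ?_⟩ <;>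
    · exfalso
      obtain ⟨x, rfl⟩ := hA a ha
      have h1 := hc (x : ℝ)
      have h2 : 0 < cnt A (x : ℝ) :=
        Finset.card_pos.2 ⟨_, mem_filter.2 ⟨ha, x, ⟨le_rfl, by linarith⟩, rfl⟩⟩
      omega
  obtain ⟨j, hj, hd⟩ : ∃ j, j ≤ B.card ∧ L ∣ A.card + j := by
    refine ⟨(L - A.card % L) % L, by have := Nat.mod_lt (L - A.card % L) hL0; omega, ?_⟩
    rw [Nat.dvd_iff_mod_eq_zero, Nat.add_mod_mod, ← Nat.mod_add_mod,
      Nat.add_sub_cancel' (Nat.mod_lt _ hL0).le, Nat.mod_self]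
  obtain ⟨B', hB', rfl⟩ := Finset.exists_subset_card_eq hj
  let F : A ⊕ B' → Set (AddCircle l) := Sum.elim Subtype.val Subtype.val
  have hF : ∀ i, ∃ y, 0 ≤ y ∧ y < l ∧ F i = arc l y := by
    rintro (a | b)
    · obtain ⟨x, hx⟩ := hA a a.2
      obtain ⟨y, h1, h2, h3⟩ := norm hl x
      exact ⟨y, h1, h2, hx.trans h3⟩
    · obtain ⟨x, hx⟩ := hB b (hB' b.2)
      obtain ⟨y, h1, h2, h3⟩ := norm hl x
      exact ⟨y, h1, h2, hx.trans h3⟩
  choose s s0 s1 s2 using hF
  let e0 : Fin (A.card + B'.card) ≃ A ⊕ B' := Fintype.equivOfCardEq (by simp)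
  let g : Fin (A.card + B'.card) ≃ A ⊕ B' := (Tuple.sort (s ∘ e0)).trans e0
  have hm : Monotone (s ∘ g) := Tuple.monotone_sort (s ∘ e0)
  have hcnt : ∀ p, (univ.filter fun k => p ∈ arc l ((s ∘ g) k)).card ≤ L := by
    intro p
    have e1 : (univ.filter fun k => p ∈ arc l ((s ∘ g) k)).card
        = (univ.filter fun i => p ∈ F i).card :=
      Finset.card_equiv g fun k => by simp [s2]
    have e2 : (univ.filter fun i => p ∈ F i).card = cnt A p + cnt B' p := by
      unfold cnt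
      rw [Finset.card_filter, Finset.card_filter, Finset.card_filter, Fintype.sum_sum_type,
        ← Finset.sum_coe_sort A, ← Finset.sum_coe_sort B']
      rfl
    have e3 : cnt B' p ≤ cnt B p := Finset.card_le_card (Finset.filter_subset_filter _ hB')
    have := hc p
    omega
  have key : ∀ i j : Fin (A.card + B'.card), i < j → i.val % L = j.val % L →
      ¬ (F (g i) ∩ F (g j)).Nonempty := by
    intro i j hij hmod
    have d1 : L ∣ j.val - i.val := (Nat.modEq_iff_dvd' (le_of_lt hij)).1 hmod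
    have hij' : i.val < j.val := hij
    have hj := j.2
    have a1 := Nat.le_of_dvd (by omega) d1
    have a2 := Nat.le_of_dvd (by omega) (Nat.dvd_sub hd d1)
    rw [s2, s2]
    exact core hl (s ∘ g) (fun _ => s0 _) (fun _ => s1 _) hm hcnt i j (by omega) (by omega)
  refine ⟨fun a => if h : a ∈ A then (g.symm (Sum.inl ⟨a, h⟩)).val % L else 0, fun a ha => ?_,
    fun a ha b hb hab hne hcol => ?_⟩
  · simp only [ha, dite_true]; exact Nat.mod_lt _ hL0
  · simp only [ha, hb, dite_true] at hcol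
    rcases lt_trichotomy (g.symm (Sum.inl ⟨a, ha⟩)) (g.symm (Sum.inl ⟨b, hb⟩)) with h | h | h
    · exact key _ _ h hcol (by simpa [F] using hne)
    · exact hab (by simpa using h)
    · exact key _ _ h hcol.symm (by simpa [F, Set.inter_comm] using hne)

lemma mem7 (i f : ℤ) (u : ℝ) (hu : ⌊2 * u⌋ = f) :
    ((u : ℝ) : AddCircle (7 / 2 : ℝ)) ∈ arc (7 / 2) (i / 2) ↔ (f - i) % 7 = 0 ∨ (f - i) % 7 = 1 := by
  have h1 := Int.floor_le (2 * u)
  have h2 := Int.lt_floor_add_one (2 * u)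
  rw [hu] at h1 h2
  constructor
  · rintro ⟨t, ⟨t1, t2⟩, e⟩
    have := QuotientAddGroup.eq.1 e
    obtain ⟨m, hm⟩ := AddSubgroup.mem_zmultiples_iff.1 this
    rw [zsmul_eq_mul] at hm
    have a1 : ((i + 7 * m : ℤ) : ℝ) < (f + 1 : ℤ) := by push_cast; linarith
    have a2 : ((f : ℤ) : ℝ) < (i + 7 * m + 2 : ℤ) := by push_cast; linarith
    have a1' := Int.cast_lt.1 a1
    have a2' := Int.cast_lt.1 a2
    omega
  · intro h
    obtain ⟨m, a1, a2⟩ : ∃ m : ℤ, i + 7 * m ≤ f ∧ f + 1 ≤ i + 7 * m + 2 :=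
      ⟨(f - i) / 7, by omega, by omega⟩
    have b1 : ((i + 7 * m : ℤ) : ℝ) ≤ f := Int.cast_le.2 a1
    have b2 : ((f + 1 : ℤ) : ℝ) ≤ (i + 7 * m + 2 : ℤ) := Int.cast_le.2 a2
    push_cast at b1 b2
    refine ⟨u - m • (7 / 2 : ℝ), ⟨?_, ?_⟩, ?_⟩
    · rw [zsmul_eq_mul]; linarith
    · rw [zsmul_eq_mul]; linarith
    · have hz : ((m • (7 / 2 : ℝ) : ℝ) : AddCircle (7 / 2 : ℝ)) = 0 := by
        rw [AddCircle.coe_zsmul, AddCircle.coe_period, smul_zero]
      simp only [AddCircle.coe_sub, hz, sub_zero]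

noncomputable def a7 (i : ℤ) : Set (AddCircle (7 / 2 : ℝ)) := arc (7 / 2) (i / 2)

lemma pt7 (i f : ℤ) : (((f : ℝ) / 2 : ℝ) : AddCircle (7 / 2 : ℝ)) ∈ a7 i ↔
    (f - i) % 7 = 0 ∨ (f - i) % 7 = 1 :=
  mem7 i f _ (by rw [mul_div_cancel₀ _ (two_ne_zero)]; simp)

lemma cex : ∃ A B : Finset (Set (AddCircle (7 / 2 : ℝ))), Arcs A ∧ Arcs B ∧
    B.card = load A + 1 ∧ (∀ a ∈ B, ∀ b ∈ B, a ≠ b → Disjoint a b) ∧ load (A ∪ B) = load A ∧
    ¬ Col A (load A) := by
  have inj : ∀ i j : ℤ, a7 i = a7 j → (i - j) % 7 = 0 := by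
    intro i j e
    have h1 := (pt7 j i).1 (e ▸ (pt7 i i).2 (by omega))
    have h2 := (pt7 j (i + 1)).1 (e ▸ (pt7 i (i + 1)).2 (by omega))
    omega
  have hA : Arcs ((Finset.Ico (0 : ℤ) 7).image a7) := by
    intro a ha
    obtain ⟨i, -, rfl⟩ := mem_image.1 ha
    exact ⟨_, rfl⟩
  have hsub : ({0, 2, 4} : Finset ℤ).image a7 ⊆ (Finset.Ico (0 : ℤ) 7).image a7 :=
    Finset.image_subset_image (by decide)
  have hload : load ((Finset.Ico (0 : ℤ) 7).image a7) = 2 := by
    apply le_antisymm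
    · refine ciSup_le fun p => ?_
      induction p using QuotientAddGroup.induction_on with
      | H u =>
        refine (Finset.card_le_card (t := {a7 (⌊2 * u⌋ % 7), a7 ((⌊2 * u⌋ - 1) % 7)})
          fun a ha => ?_).trans Finset.card_le_two
        obtain ⟨h1, h2⟩ := mem_filter.1 ha
        obtain ⟨i, hi, rfl⟩ := mem_image.1 h1
        rw [mem_Ico] at hi
        rcases (mem7 i _ u rfl).1 h2 with h | h
        · rw [show i = ⌊2 * u⌋ % 7 by omega]; simp
        · rw [show i = (⌊2 * u⌋ - 1) % 7 by omega]; simp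
    · refine le_trans ?_ (le_load _ ((((1 : ℤ) : ℝ) / 2 : ℝ) : AddCircle (7 / 2 : ℝ)))
      refine Finset.one_lt_card.2 ⟨a7 0, ?_, a7 1, ?_, fun e => by have := inj _ _ e; omega⟩
      · exact mem_filter.2 ⟨mem_image_of_mem _ (by decide), (pt7 0 1).2 (by omega)⟩
      · exact mem_filter.2 ⟨mem_image_of_mem _ (by decide), (pt7 1 1).2 (by omega)⟩
  refine ⟨(Finset.Ico (0 : ℤ) 7).image a7, ({0, 2, 4} : Finset ℤ).image a7, hA,
    fun a ha => hA a (hsub ha), ?_, ?_, by rw [Finset.union_eq_left.2 hsub], ?_⟩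
  · rw [hload, Finset.card_image_of_injOn]
    · rfl
    · intro i hi j hj e
      have := inj i j e
      simp only [coe_insert, coe_singleton, Set.mem_insert_iff, Set.mem_singleton_iff] at hi hj
      omega
  · intro a ha b hb hab
    obtain ⟨i, hi, rfl⟩ := mem_image.1 ha
    obtain ⟨j, hj, rfl⟩ := mem_image.1 hb
    have hij : i ≠ j := fun e => hab (by rw [e])
    simp only [mem_insert, mem_singleton] at hi hj
    refine Set.disjoint_left.2 fun p h1 h2 => ?_
    induction p using QuotientAddGroup.induction_on with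
    | H u =>
      have := (mem7 i _ u rfl).1 h1
      have := (mem7 j _ u rfl).1 h2
      omega
  · rw [hload]
    rintro ⟨c, h1, h2⟩
    have m : ∀ i : ℤ, 0 ≤ i → i < 7 → a7 i ∈ (Finset.Ico (0 : ℤ) 7).image a7 :=
      fun i a b => mem_image_of_mem _ (mem_Ico.2 ⟨a, b⟩)
    have adj : ∀ i j : ℤ, 0 ≤ i → i < 7 → 0 ≤ j → j < 7 → (j - i) % 7 = 1 →
        c (a7 i) ≠ c (a7 j) := fun i j a b a' b' h =>
      h2 _ (m i a b) _ (m j a' b') (fun e => by have := inj _ _ e; omega)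
        ⟨_, (pt7 i j).2 (Or.inr h), (pt7 j j).2 (by omega)⟩
    have := adj 0 1 (by omega) (by omega) (by omega) (by omega) (by omega)
    have := adj 1 2 (by omega) (by omega) (by omega) (by omega) (by omega)
    have := adj 2 3 (by omega) (by omega) (by omega) (by omega) (by omega)
    have := adj 3 4 (by omega) (by omega) (by omega) (by omega) (by omega)
    have := adj 4 5 (by omega) (by omega) (by omega) (by omega) (by omega)
    have := adj 5 6 (by omega) (by omega) (by omega) (by omega) (by omega)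
    have := adj 6 0 (by omega) (by omega) (by omega) (by omega) (by omega)
    have := h1 _ (m 0 (by omega) (by omega))
    have := h1 _ (m 1 (by omega) (by omega))
    have := h1 _ (m 2 (by omega) (by omega))
    have := h1 _ (m 3 (by omega) (by omega))
    have := h1 _ (m 4 (by omega) (by omega))
    have := h1 _ (m 5 (by omega) (by omega))
    have := h1 _ (m 6 (by omega) (by omega))
    omega

theorem result :
    (∀ l : ℝ, 2 ≤ l → ∀ A B : Finset (Set (AddCircle l)), Arcs A → Arcs B → Disjoint A B →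
      load A ≤ B.card + 1 → load (A ∪ B) = load A → Col A (load A)) ∧
    (∀ l : ℝ, 2 ≤ l → ∀ A B : Finset (Set (AddCircle l)), Arcs A → Arcs B →
      load A ≤ B.card + 1 → (∀ p, cnt A p + cnt B p ≤ load A) → Col A (load A)) ∧
    ∃ A B : Finset (Set (AddCircle (7 / 2 : ℝ))), Arcs A ∧ Arcs B ∧
      B.card = load A + 1 ∧ (∀ a ∈ B, ∀ b ∈ B, a ≠ b → Disjoint a b) ∧ load (A ∪ B) = load A ∧
      ¬ Col A (load A) := by
  refine ⟨fun l hl A B hA hB hd h1 h2 => main (by linarith) A B hA hB _ h1 fun p => ?_,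
    fun l hl A B hA hB h1 h2 => main (by linarith) A B hA hB _ h1 h2, cex⟩
  rw [← h2]
  refine le_trans (le_of_eq ?_) (le_load _ p)
  unfold cnt
  rw [Finset.filter_union, Finset.card_union_of_disjoint (Finset.disjoint_filter_filter hd)]

end Pool.Agent.Results.MP_7d4b8e_co.Arcs
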